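import Pool.Agent.U753.MX.Stm
import Pool.Agent.U261.MK.EN

/-!
# Project MX, package GE: the Gibbs state and its entropy
-/

set_option autoImplicit false

open scoped BigOperators Matrix ComplexOrder
open scoped Matrix.Norms.L2Operator

noncomputable section

namespace Pool.Agent.U333.MX

open Pool.Agent.U753.MK (vnE)
open Pool.Agent.U753.MX
open Pool.Agent.U261.MK (exp_unitary_conj)

variable {n : Type} [Fintype n] [DecidableEq n]

/-- The von Neumann entropy in terms of a unitary diagonalisation. -/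
lemma vnE_conj {U : Matrix n n ℂ} (hU : Uᴴ * U = 1) (p : n → ℝ) :
    vnE (U * Matrix.diagonal (fun i => (p i : ℂ)) * Uᴴ) = ∑ i, Real.negMulLog (p i) := by
  set G : Matrix n n ℂ := U * Matrix.diagonal (fun i => (p i : ℂ)) * Uᴴ with hG
  have hH : G.IsHermitian := by
    rw [hG, Matrix.IsHermitian, Matrix.conjTranspose_mul, Matrix.conjTranspose_mul,
      Matrix.conjTranspose_conjTranspose, Matrix.diagonal_conjTranspose, mul_assoc]
    congr 3
    funext i
    simp
  have hc : G.charpoly = ∏ i, (Polynomial.X - Polynomial.C (p i : ℂ)) := by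
    rw [hG, Matrix.charpoly_mul_comm, ← mul_assoc, hU, one_mul, Matrix.charpoly_diagonal]
  have hroots : G.charpoly.roots = Multiset.map (fun i => (p i : ℂ)) Finset.univ.val := by
    rw [hc, Polynomial.roots_prod]
    · simp
    · simp [Finset.prod_ne_zero_iff, Polynomial.X_sub_C_ne_zero]
  have h1 := hH.roots_charpoly_eq_eigenvalues
  rw [hroots] at h1
  have h2 := congrArg (fun s : Multiset ℂ => (s.map (fun z => Real.negMulLog z.re)).sum) h1
  simp only [Multiset.map_map, Function.comp_def, Complex.ofReal_re] at h2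
  rw [vnE, dif_pos hH]
  refine Eq.symm (Eq.trans ?_ (h2.trans ?_))
  · rfl
  · apply congrArg Multiset.sum
    apply Multiset.map_congr rfl
    intro i _
    simp

theorem t_ge : StmGE := by
  intro n _ _ _ K hK
  obtain ⟨k, hk⟩ : ∃ k, k = hK.eigenvalues := ⟨_, rfl⟩
  obtain ⟨U, hUdef⟩ : ∃ U : Matrix n n ℂ, U = (hK.eigenvectorUnitary : _) := ⟨_, rfl⟩
  have hU : U ∈ Matrix.unitaryGroup n ℂ := by
    rw [hUdef]; exact (hK.eigenvectorUnitary).2
  have hspec : K = U * Matrix.diagonal (fun i => (k i : ℂ)) * Uᴴ := by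
    conv_lhs => rw [hK.spectral_theorem]
    rw [Unitary.conjStarAlgAut_apply, hUdef, hk]
    rfl
  have hUU : Uᴴ * U = 1 := by
    rw [← Matrix.star_eq_conjTranspose]; exact Matrix.mem_unitaryGroup_iff'.1 hU
  have hneg : -K = U * Matrix.diagonal (fun i => (((-k i : ℝ)) : ℂ)) * Uᴴ := by
    have h1 : (Matrix.diagonal (fun i => (((-k i : ℝ)) : ℂ)) : Matrix n n ℂ) =
        -Matrix.diagonal (fun i => (k i : ℂ)) := by
      ext a b
      by_cases h : a = b
      · subst h
        simp
      · simp [Matrix.diagonal_apply_ne _ h]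
    rw [h1, Matrix.mul_neg, Matrix.neg_mul, ← hspec]
  have hexp : NormedSpace.exp (-K) =
      U * Matrix.diagonal (fun i => ((Real.exp (-k i) : ℝ) : ℂ)) * Uᴴ := by
    rw [hneg, exp_unitary_conj hU]
  have htr : ∀ q : n → ℝ, (U * Matrix.diagonal (fun i => (q i : ℂ)) * Uᴴ).trace =
      ((∑ i, q i : ℝ) : ℂ) := by
    intro q
    rw [Matrix.trace_mul_comm, ← mul_assoc, hUU, one_mul, Matrix.trace_diagonal]
    push_cast
    rfl
  obtain ⟨Z, hZ⟩ : ∃ Z : ℝ, Z = ∑ i, Real.exp (-k i) := ⟨_, rfl⟩
  have hpart : part K = Z := by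
    rw [part, hexp, htr, hZ, Complex.ofReal_re]
  have hZ0 : 0 < Z := by
    rw [hZ]
    exact Finset.sum_pos (fun i _ => Real.exp_pos _) Finset.univ_nonempty
  obtain ⟨p, hp⟩ : ∃ p : n → ℝ, p = fun i => Z⁻¹ * Real.exp (-k i) := ⟨_, rfl⟩
  have hpi : ∀ i, p i = Z⁻¹ * Real.exp (-k i) := fun i => by rw [hp]
  have hp0 : ∀ i, 0 < p i := fun i => by
    rw [hpi]
    exact mul_pos (inv_pos.mpr hZ0) (Real.exp_pos _)
  have hpsum : ∑ i, p i = 1 := by
    simp only [hpi]
    rw [← Finset.mul_sum, ← hZ, inv_mul_cancel₀ hZ0.ne']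
  have hgibbs : gibbs K = U * Matrix.diagonal (fun i => (p i : ℂ)) * Uᴴ := by
    rw [gibbs, hpart, hexp]
    have h1 : (Matrix.diagonal (fun i => (p i : ℂ)) : Matrix n n ℂ) =
        ((Z⁻¹ : ℝ) : ℂ) • Matrix.diagonal (fun i => ((Real.exp (-k i) : ℝ) : ℂ)) := by
      rw [← Matrix.diagonal_smul]
      congr 1
      funext i
      rw [hpi]
      simp only [Pi.smul_apply, smul_eq_mul]
      push_cast
      rfl
    rw [h1, Matrix.mul_smul, Matrix.smul_mul]
  refine ⟨by rw [hpart]; exact hZ0, ?_, ?_, ?_⟩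
  · rw [hgibbs]
    apply Matrix.PosSemidef.mul_mul_conjTranspose_same
    rw [Matrix.posSemidef_diagonal_iff]
    intro i
    exact_mod_cast (hp0 i).le
  · rw [hgibbs, htr, hpsum]
    simp
  · rw [hgibbs, vnE_conj hUU, hpart]
    have h1 : U * Matrix.diagonal (fun i => (p i : ℂ)) * Uᴴ * K =
        U * Matrix.diagonal (fun i => ((p i * k i : ℝ) : ℂ)) * Uᴴ := by
      conv_lhs => rw [hspec]
      calc U * Matrix.diagonal (fun i => (p i : ℂ)) * Uᴴ *
            (U * Matrix.diagonal (fun i => (k i : ℂ)) * Uᴴ)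
          = U * (Matrix.diagonal (fun i => (p i : ℂ)) * (Uᴴ * U) *
            Matrix.diagonal (fun i => (k i : ℂ))) * Uᴴ := by
              simp only [mul_assoc]
        _ = _ := by
              rw [hUU, mul_one, Matrix.diagonal_mul_diagonal]
              congr 3
              funext i
              push_cast
              rfl
    rw [h1, htr, Complex.ofReal_re]
    have h2 : ∀ i, Real.negMulLog (p i) = p i * k i + p i * Real.log Z := by
      intro i
      rw [Real.negMulLog]
      have : Real.log (p i) = -Real.log Z - k i := by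
        rw [hpi, Real.log_mul (inv_ne_zero hZ0.ne') (Real.exp_pos _).ne', Real.log_inv,
          Real.log_exp]
        ring
      rw [this]
      ring
    simp only [h2]
    rw [Finset.sum_add_distrib, ← Finset.sum_mul, hpsum]
    ring

end Pool.Agent.U333.MX
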